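import Mathlib
import Pool.Agent.W484.AA.Mixed

/-!
# Tate classes on products of almost all abelian varieties with arbitrary varieties of small rank

Let `g i` (`i` in a finite set `I`) be positive integers and `r` an integer smaller than all the
`g i`.  For a prime power `q` let `S i` be the set of the characteristic polynomials of Frobenius
of the ordinary abelian varieties of dimension `g i` over the field with `q` elements, or of all
abelian varieties of dimension `g i`, or any set in between.  By Weil, Honda and Tate its elements
correspond to the isogeny classes, the first set contains `ordinaryWeilPolys q (g i)`, and the
second one is contained in `weilPolys q (g i)`.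

For all families `f i` in `S i` with the exception of a proportion `O (q ^ (-1 / 6) log q)` the
following holds for all abelian varieties `A` over the field with `q` elements, isogenous to a
product of powers of abelian varieties `A i` with characteristic polynomials `f i`, all `s > 0`, and
**all** varieties `Z` over the field with `q ^ s` elements, which may be singular, open, reducible,
and all degrees `m`, such that the eigenvalues of Frobenius on the etale homology `H_m (Z)` and their
conjugates generate a group of rank at most `r` modulo the powers of `q` (`SmallRank`): every Tate
class in the part `H ^ n (A) ⊗ H_m (Z)` of the homology of `A × Z` is a linear combination of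
products of `n / 2` classes of divisors on `A` and a Tate class in `H_m (Z)`; it is zero if `n` is
odd.  So Tate's theorem on divisors implies: the conjecture of Jannsen for `A × Z` follows from
that for `Z`, over all finite extensions.

The rank is at most `r` for instance for all powers of an abelian variety of dimension `r`, in all
degrees, and for `H ^ m (Z)`, `Z` smooth and projective, if Frobenius has at most `2 r` eigenvalues
on `H ^ m (Z)` which are not powers of `q` up to roots of unity.  The bound `r < g i` is sharp.

Here `V` is the first cohomology of `A` with the Frobenius endomorphism `F` of the field with `q`
elements, `H` is `H_m (Z)` with its Frobenius endomorphism `G`.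

The idea of the proof: by a sieve (helper521) almost all families are such that each pair `α`,
`q / α` of roots can be exchanged by a Galois automorphism which fixes all the other roots of all
the `f i`.  If a product of roots, no two with product `q`, and of an eigenvalue of `G` is a power
of `q` up to a root of unity, then the flips and the transitivity of the Galois group show that
the group generated by the eigenvalues of `G` contains a power of each root `α` of some `f i`, up
to powers of `q`, and the flips show that these are independent: the rank is at least `g i`.
-/

set_option autoImplicit false

namespace Pool.Agent.Results.MP_40dc3c_ag.AlmostAllTimesSingular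

open Polynomial Pool.Agent.W521.Descent Pool.Agent.W521.Count Pool.Agent.W484.AA

/-- `weilPolys q g` is the set of monic integral polynomials of degree `2 g` with constant term
`q ^ g` and all roots of absolute value `√q`; `ordinaryWeilPolys q g` is the subset of those
whose coefficient of index `g` is prime to `q`. -/
theorem result {I : Type} [Fintype I] (g : I → ℕ) (r : ℕ) (hr : ∀ i, r < g i) :
    ∃ C : ℝ, ∀ q : ℕ, IsPrimePow q → ∀ S : I → Set ℤ[X],
      (∀ i, ordinaryWeilPolys q (g i) ⊆ S i ∧ S i ⊆ weilPolys q (g i)) →
      (∀ i, (S i).Finite ∧ (S i).Nonempty) ∧
      ({f : I → ℤ[X] | (∀ i, f i ∈ S i) ∧ ¬ TateForSmallRank q r f}.ncard : ℝ) ≤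
        C * (Real.log q * (q : ℝ) ^ (-(1 / 6) : ℝ)) * ∏ i, ((S i).ncard : ℝ) :=
  count_of_good g (fun i => (Nat.zero_le r).trans_lt (hr i)) (fun q f => TateForSmallRank q r f)
    fun _ hq x hx => tateForSmallRank_of_good g hq.pos.ne' r hr x hx

end Pool.Agent.Results.MP_40dc3c_ag.AlmostAllTimesSingular
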